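import Pool.Agent.W819.EN.Stm

/-! # Rectangles in general position -/

namespace Pool.Agent.W819.EN
open H974 Finset

theorem mp_union (g : LSym) (F G : Finset Edg) : g.mp (F ∪ G) = g.mp F ∪ g.mp G := by
  ext e; simp [LSym.mem_mp]

theorem inv_mp (g : LSym) (X : Finset Edg) : g.mp (g.inv.mp X) = X := by
  ext e
  rw [LSym.mem_mp, LSym.mem_mp]
  simp [LSym.inv]

theorem card_mp (g : LSym) (X : Finset Edg) : (g.mp X).card = X.card := by
  unfold LSym.mp
  rw [Finset.card_map]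

theorem opn_mp (g : LSym) {k : ℕ} {S F : Finset Edg} {C C' : Finset Edg → Prop}
    (hC : ∀ G, C' (g.mp G) ↔ C G) : Opn k (g.mp S) C' (g.mp F) ↔ Opn k S C F := by
  constructor
  · rintro ⟨X, hX, hk, h⟩
    refine ⟨g.inv.mp X, ?_, ?_, ?_⟩
    · intro e he
      rw [LSym.mem_mp] at he
      have h1 := hX he
      rw [LSym.mem_mp] at h1
      simpa [LSym.inv] using h1
    · rw [card_mp]; exact hk
    · rw [← hC, mp_union, inv_mp]
      exact h
  · rintro ⟨X, hX, hk, h⟩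
    refine ⟨g.mp X, g.mp_mono hX, ?_, ?_⟩
    · rw [card_mp]; exact hk
    · rw [← mp_union, hC]
      exact h

/-- probability of a costly left-right crossing in general position -/
theorem pr_opnLR (k : ℕ) (a b c d : ℤ) :
    Pr P2 (LRE a b c d) (fun F => ¬ Opn k (LRE a b c d) (LRc a b c d) F) =
      Pr P2 (LRE 0 (b - a) 0 (d - c))
        (fun F => ¬ Opn k (LRE 0 (b - a) 0 (d - c)) (LRc 0 (b - a) 0 (d - c)) F) := by
  have h1 : LRE a b c d = (trl a c).mp (LRE 0 (b - a) 0 (d - c)) := by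
    rw [trl_LRE]; congr 1 <;> ring
  conv_lhs => rw [h1]
  rw [LSym.pr]
  apply Pr_congr
  intro F _
  apply not_congr
  apply opn_mp
  intro G
  have := LRc_trl_iff (a := 0) (b := b - a) (c := 0) (d := d - c) (s := a) (t := c) (F := G)
  simpa using this

/-- probability of a costly top-bottom crossing in general position -/
theorem pr_opnTB (k : ℕ) (a b c d : ℤ) :
    Pr P2 (TBE a b c d) (fun F => ¬ Opn k (TBE a b c d) (TBc a b c d) F) =
      Pr P2 (LRE 0 (d - c) 0 (b - a))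
        (fun F => ¬ Opn k (LRE 0 (d - c) 0 (b - a)) (LRc 0 (d - c) 0 (b - a)) F) := by
  have h1 : TBE a b c d = tps.mp (LRE c d a b) := by rw [tps_LRE]
  conv_lhs => rw [h1]
  rw [LSym.pr, ← pr_opnLR]
  apply Pr_congr
  intro F _
  apply not_congr
  apply opn_mp
  intro G
  exact TBc_tps_iff

theorem tailLR (hT : Tail) {ρ : ℝ} (hρ : 0 < ρ) : ∃ C : ℝ, 0 < C ∧
    (∀ a b c d : ℤ, 1 ≤ d - c → 0 < b - a → b - a ≤ 8 * (d - c) → ∀ k : ℕ,
      Pr P2 (LRE a b c d) (fun F => ¬ Opn k (LRE a b c d) (LRc a b c d) F) ≤ C * ρ ^ k) ∧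
    (∀ a b c d : ℤ, 1 ≤ b - a → 0 < d - c → d - c ≤ 8 * (b - a) → ∀ k : ℕ,
      Pr P2 (TBE a b c d) (fun F => ¬ Opn k (TBE a b c d) (TBc a b c d) F) ≤ C * ρ ^ k) := by
  obtain ⟨C, hC, h⟩ := hT ρ hρ
  refine ⟨C, hC, ?_, ?_⟩
  · intro a b c d h1 h2 h3 k
    rw [pr_opnLR]
    exact h _ _ h1 h2 h3 k
  · intro a b c d h1 h2 h3 k
    rw [pr_opnTB]
    exact h _ _ h1 h2 h3 k

end Pool.Agent.W819.EN
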