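import Pool.Agent.H863R2.NL.Bad
import Pool.Agent.W819.EN.TailG

/-! # Superexponential tails of the bad event of the cylinder -/

namespace Pool.Agent.W819.EN.BadT
open H974 H906.Cyl Finset
open Pool.Agent.H863R2.NL (Good)

theorem bad1 {a k : ℕ} {x : ℝ} {S : Finset Edg}
    (hS : S.image (red (10 * a)) ⊆ CE (10 * a) (20 * a))
    (hinj : Set.InjOn (red (10 * a)) S) (C : Finset Edg → Prop)
    (hp : Pr P2 S (fun F => ¬ Opn k S C F) ≤ x) :
    Ex (fun _ => (1/2 : ℝ)) (CE (10 * a) (20 * a))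
      (fun F => ind (¬ Pool.Agent.H863R2.NL.Opn k S C (pf (10 * a) S F))) ≤ x := by
  have h := Pool.Agent.H863R2.NL.BadAux.one (n := 10 * a) (M := 20 * a) (φ := fun _ => 1)
    (B := ∅) (S := S) (fun _ _ => rfl) (by simp) hS hinj (by simp)
    (fun F => ¬ Pool.Agent.H863R2.NL.Opn k S C F)
  simp only [one_mul, Ex_const] at h
  rw [h]
  exact hp

theorem bad_tail (hT : Tail) {ρ : ℝ} (hρ : 0 < ρ) : ∃ C : ℝ, 0 < C ∧ ∀ a : ℕ, 0 < a →
    ∀ k : ℕ, Ex (fun _ => (1/2 : ℝ)) (CE (10 * a) (20 * a))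
      (fun F => ind (¬ Good (10 * a) (2 * a) k F)) ≤ C * ρ ^ k := by
  obtain ⟨C, hC, hLR, hTB⟩ := tailLR hT hρ
  refine ⟨6 * C, by positivity, ?_⟩
  intro a ha k
  have ok := okq (q := 1/2) (by norm_num) (by norm_num)
  set b : ℤ := ((2 * a : ℕ) : ℤ) with hb
  set n : ℤ := ((10 * a : ℕ) : ℤ) with hn
  have hb' : b = 2 * (a : ℤ) := by rw [hb]; push_cast; ring
  have hn' : n = 10 * (a : ℤ) := by rw [hn]; push_cast; ring
  have ha' : (0 : ℤ) < a := by exact_mod_cast ha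
  set S1 := LRE (-(2 * b)) (2 * b) b (2 * b) with hS1
  set S2 := LRE (-(2 * b)) (2 * b) (-(2 * b)) (-b) with hS2
  set S3 := TBE b (2 * b) (-(2 * b)) (2 * b) with hS3
  set S4 := TBE (-(2 * b)) (-b) (-(2 * b)) (2 * b) with hS4
  set S5 := LRE b (n + 2 * b) (-b) b with hS5
  set S6 := TBE (n - b) (n + b) (-(2 * b)) (n - b) with hS6
  have b1 := bad1 (a := a) (k := k) (S := S1)
    (by
      refine (image_subset_image LRE_subset_RE).trans (image_red_sub (by omega) ?_ ?_) <;> omega)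
    ((red_inj_x (n := 10 * a) (a := -(2 * b)) (b := 2 * b) (c := b) (d := 2 * b)
      (by omega)).mono (by exact_mod_cast LRE_subset_RE))
    (LRc (-(2 * b)) (2 * b) b (2 * b)) (hLR _ _ _ _ (by omega) (by omega) (by omega) k)
  have b2 := bad1 (a := a) (k := k) (S := S2)
    (by
      refine (image_subset_image LRE_subset_RE).trans (image_red_sub (by omega) ?_ ?_) <;> omega)
    ((red_inj_x (n := 10 * a) (a := -(2 * b)) (b := 2 * b) (c := -(2 * b)) (d := -b)
      (by omega)).mono (by exact_mod_cast LRE_subset_RE))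
    (LRc (-(2 * b)) (2 * b) (-(2 * b)) (-b)) (hLR _ _ _ _ (by omega) (by omega) (by omega) k)
  have b3 := bad1 (a := a) (k := k) (S := S3)
    (by
      refine (image_subset_image TBE_subset_RE).trans (image_red_sub (by omega) ?_ ?_) <;> omega)
    ((red_inj_x (n := 10 * a) (a := b) (b := 2 * b) (c := -(2 * b)) (d := 2 * b)
      (by omega)).mono (by exact_mod_cast TBE_subset_RE))
    (TBc b (2 * b) (-(2 * b)) (2 * b)) (hTB _ _ _ _ (by omega) (by omega) (by omega) k)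
  have b4 := bad1 (a := a) (k := k) (S := S4)
    (by
      refine (image_subset_image TBE_subset_RE).trans (image_red_sub (by omega) ?_ ?_) <;> omega)
    ((red_inj_x (n := 10 * a) (a := -(2 * b)) (b := -b) (c := -(2 * b)) (d := 2 * b)
      (by omega)).mono (by exact_mod_cast TBE_subset_RE))
    (TBc (-(2 * b)) (-b) (-(2 * b)) (2 * b)) (hTB _ _ _ _ (by omega) (by omega) (by omega) k)
  have b5 := bad1 (a := a) (k := k) (S := S5)
    (by
      refine (image_subset_image LRE_subset_RE).trans (image_red_sub (by omega) ?_ ?_) <;> omega)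
    ((red_inj_y (n := 10 * a) (a := b) (b := n + 2 * b) (c := -b) (d := b)
      (by omega)).mono (by exact_mod_cast LRE_subset_RE))
    (LRc b (n + 2 * b) (-b) b) (hLR _ _ _ _ (by omega) (by omega) (by omega) k)
  have b6 := bad1 (a := a) (k := k) (S := S6)
    (by
      refine (image_subset_image TBE_subset_RE).trans (image_red_sub (by omega) ?_ ?_) <;> omega)
    ((red_inj_x (n := 10 * a) (a := n - b) (b := n + b) (c := -(2 * b)) (d := n - b)
      (by omega)).mono (by exact_mod_cast TBE_subset_RE))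
    (TBc (n - b) (n + b) (-(2 * b)) (n - b)) (hTB _ _ _ _ (by omega) (by omega) (by omega) k)
  have key : ∀ F : Finset Edg, ind (¬ Good (10 * a) (2 * a) k F) ≤
      ((((ind (¬ Pool.Agent.H863R2.NL.Opn k S1 (LRc (-(2 * b)) (2 * b) b (2 * b)) (pf (10 * a) S1 F)) +
        ind (¬ Pool.Agent.H863R2.NL.Opn k S2 (LRc (-(2 * b)) (2 * b) (-(2 * b)) (-b)) (pf (10 * a) S2 F))) +
        ind (¬ Pool.Agent.H863R2.NL.Opn k S3 (TBc b (2 * b) (-(2 * b)) (2 * b)) (pf (10 * a) S3 F))) +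
        ind (¬ Pool.Agent.H863R2.NL.Opn k S4 (TBc (-(2 * b)) (-b) (-(2 * b)) (2 * b)) (pf (10 * a) S4 F))) +
        ind (¬ Pool.Agent.H863R2.NL.Opn k S5 (LRc b (n + 2 * b) (-b) b) (pf (10 * a) S5 F))) +
        ind (¬ Pool.Agent.H863R2.NL.Opn k S6 (TBc (n - b) (n + b) (-(2 * b)) (n - b)) (pf (10 * a) S6 F)) := by
    intro F
    have h1 : ¬ Good (10 * a) (2 * a) k F →
        ((((¬ Pool.Agent.H863R2.NL.Opn k S1 (LRc (-(2 * b)) (2 * b) b (2 * b)) (pf (10 * a) S1 F) ∨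
        ¬ Pool.Agent.H863R2.NL.Opn k S2 (LRc (-(2 * b)) (2 * b) (-(2 * b)) (-b)) (pf (10 * a) S2 F)) ∨
        ¬ Pool.Agent.H863R2.NL.Opn k S3 (TBc b (2 * b) (-(2 * b)) (2 * b)) (pf (10 * a) S3 F)) ∨
        ¬ Pool.Agent.H863R2.NL.Opn k S4 (TBc (-(2 * b)) (-b) (-(2 * b)) (2 * b)) (pf (10 * a) S4 F)) ∨
        ¬ Pool.Agent.H863R2.NL.Opn k S5 (LRc b (n + 2 * b) (-b) b) (pf (10 * a) S5 F)) ∨
        ¬ Pool.Agent.H863R2.NL.Opn k S6 (TBc (n - b) (n + b) (-(2 * b)) (n - b)) (pf (10 * a) S6 F) := by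
      intro h
      by_contra h2
      simp only [not_or, not_not] at h2
      exact h ⟨⟨h2.1.1.1.1.1, h2.1.1.1.1.2⟩, ⟨h2.1.1.1.2, h2.1.1.2⟩, ⟨h2.1.2, h2.2⟩⟩
    refine (ind_mono h1).trans ?_
    refine (ind_or_le _ _).trans (add_le_add ?_ le_rfl)
    refine (ind_or_le _ _).trans (add_le_add ?_ le_rfl)
    refine (ind_or_le _ _).trans (add_le_add ?_ le_rfl)
    refine (ind_or_le _ _).trans (add_le_add ?_ le_rfl)
    exact ind_or_le _ _
  have h1 := Ex_mono ok (S := CE (10 * a) (20 * a)) fun F _ => key F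
  simp only [Ex_add] at h1
  linarith

end Pool.Agent.W819.EN.BadT
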