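import Pool.Agent.W819.EN.Stm
import Pool.Agent.H906R2.Arm.Cyl

/-!
# The number of colour changes: definition

Faces: `(a, s)` is the point `((a + s) / 2, (a - s) / 2)`: a vertex of `ℤ²` if `a + s` is even and
a dual vertex if `a + s` is odd.  The edge `edz j d` is the plaquette with the four faces `(j, d)`,
`(j + 1, d)`, `(j, d + 1)`, `(j + 1, d + 1)`.  (The definitions of `Ch`, `nb`, `St`, `lnk`, `Mv`,
`fc` are copies of those of `Pool.Agent.H863R2.Nest.Defs` and `Pool.Agent.H863R2.NL.Defs`.)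
-/

namespace Pool.Agent.W819.EN
open H974 H906.Cyl Finset

/-- chains with AT MOST `k` steps: free moves `R`, steps `S` (each costs 1) -/
inductive Ch {X : Type*} (R S : X → X → Prop) : ℕ → X → X → Prop
  | refl (k : ℕ) (a : X) : Ch R S k a a
  | rel {k : ℕ} {a b c : X} : Ch R S k a b → R b c → Ch R S k a c
  | step {k : ℕ} {a b c : X} : Ch R S k a b → S b c → Ch R S (k + 1) a c

section basic
variable {X Y : Type*} {R R' S S' : X → X → Prop}

theorem Ch.succ {k : ℕ} {a b : X} (h : Ch R S k a b) : Ch R S (k + 1) a b := by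
  induction h with
  | refl k a => exact Ch.refl _ _
  | rel _ h ih => exact Ch.rel ih h
  | step _ h ih => exact Ch.step ih h

theorem Ch.mono {k l : ℕ} {a b : X} (h : Ch R S k a b) (hkl : k ≤ l) : Ch R S l a b := by
  induction l, hkl using Nat.le_induction with
  | base => exact h
  | succ l _ ih => exact ih.succ

theorem Ch.trans {k l : ℕ} {a b c : X} (h : Ch R S k a b) (h' : Ch R S l b c) :
    Ch R S (k + l) a c := by
  induction h' with
  | refl l b => exact h.mono (Nat.le_add_right _ _)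
  | rel _ hr ih => exact Ch.rel (ih h) hr
  | step _ hs ih => exact Ch.step (ih h) hs

theorem Ch.of_rel {k : ℕ} {a b : X} (h : R a b) : Ch R S k a b := Ch.rel (Ch.refl k a) h

theorem Ch.of_step {k : ℕ} {a b : X} (h : S a b) : Ch R S (k + 1) a b := Ch.step (Ch.refl k a) h

theorem Ch.symm (hR : ∀ a b, R a b → R b a) (hS : ∀ a b, S a b → S b a) {k : ℕ} {a b : X}
    (h : Ch R S k a b) : Ch R S k b a := by
  induction h with
  | refl k a => exact Ch.refl _ _
  | @rel k a b c _ hr ih =>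
    have := Ch.trans (Ch.of_rel (R := R) (S := S) (k := 0) (hR _ _ hr)) ih
    rwa [zero_add] at this
  | @step k a b c _ hs ih =>
    have := Ch.trans (Ch.of_step (R := R) (S := S) (k := 0) (hS _ _ hs)) ih
    rwa [zero_add, add_comm] at this

/-- map a chain: free moves become free chains, steps become chains of cost `1` -/
theorem Ch.map {RY SY : Y → Y → Prop} (g : X → Y)
    (hR : ∀ a b, R a b → Ch RY SY 0 (g a) (g b)) (hS : ∀ a b, S a b → Ch RY SY 1 (g a) (g b))
    {k : ℕ} {a b : X} (h : Ch R S k a b) : Ch RY SY k (g a) (g b) := by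
  induction h with
  | refl k a => exact Ch.refl _ _
  | rel _ hr ih => exact ih.trans (hR _ _ hr)
  | step _ hs ih => exact ih.trans (hS _ _ hs)

end basic

/-- neighbours in `ℤ` -/
def nb (a b : ℤ) : Prop := b = a + 1 ∨ a = b + 1

/-- two faces which share a corner of a plaquette and have different colours -/
def St (p q : ℤ × ℤ) : Prop := (p.2 = q.2 ∧ nb p.1 q.1) ∨ (p.1 = q.1 ∧ nb p.2 q.2)

/-- a free move between the lower face `p` and the upper face `q`: along an edge of `G` or across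
an edge which is not in `G` -/
def lnk (G : Set Edg) (p q : ℤ × ℤ) : Prop :=
  q.2 = p.2 + 1 ∧
  ((q.1 = p.1 + 1 ∧ (if (p.1 + p.2) % 2 = 0 then edz p.1 p.2 ∈ G else edz p.1 p.2 ∉ G)) ∨
   (p.1 = q.1 + 1 ∧ (if (q.1 + p.2) % 2 = 0 then edz q.1 p.2 ∉ G else edz q.1 p.2 ∈ G)))

/-- free moves (symmetric) -/
def Mv (G : Set Edg) (p q : ℤ × ℤ) : Prop := lnk G p q ∨ lnk G q p

/-- the face of a vertex -/
def fc (v : Vtx) : ℤ × ℤ := (v.1 + v.2, v.1 - v.2)

/-- twice the sup distance between the face `p` and the vertex `v` -/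
def nmv (v : Vtx) (p : ℤ × ℤ) : ℤ := |p.1 - (v.1 + v.2)| + |p.2 - (v.1 - v.2)|

/-- there is a chain from the distance at most `r` of `v` to the distance at least `R` of `v` with
at most `K` colour changes -/
def DA (G : Set Edg) (v : Vtx) (r R K : ℕ) : Prop :=
  ∃ p q : ℤ × ℤ, nmv v p ≤ 2 * r ∧ 2 * (R : ℤ) ≤ nmv v q ∧ Ch (Mv G) St K p q

/-- the minimal number of colour changes between the distances `r` and `R` of `v` -/
noncomputable def NA (F : Finset Edg) (v : Vtx) (r R : ℕ) : ℕ :=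
  sInf {K | DA (↑F : Set Edg) v r R K}

/-! ## Statements -/

/-- GEO1 -/
def SLoc : Prop := ∀ (F : Finset Edg) (v : Vtx) (r R : ℕ), r ≤ R →
  NA F v r R = NA (F ∩ an v r R) v r R

/-- GEO2 -/
def STr : Prop := ∀ (F : Finset Edg) (v w : Vtx) (r R : ℕ),
    NA ((trl v.1 v.2).mp F) (w.1 + v.1, w.2 + v.2) r R = NA F w r R

/-- GEO3 -/
def SMono : Prop := (∀ (F : Finset Edg) (v : Vtx) (r r' R R' : ℕ), r' ≤ r → R ≤ R' →
    NA F v r R ≤ NA F v r' R') ∧ ∀ (F : Finset Edg) (v : Vtx) (r R : ℕ), NA F v r R ≤ 2 * R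

/-- GEO4 -/
def SSuper : Prop := ∀ (F : Finset Edg) (v : Vtx) (r1 R1 r2 R2 : ℕ), r1 ≤ R1 → R1 < r2 →
    r2 ≤ R2 → NA F v r1 R1 + NA F v r2 R2 ≤ NA F v r1 R2

/-- GEO5: joining two chains at a cheap circuit -/
def SCir : Prop := ∀ (F : Finset Edg) (v : Vtx) (b k r R : ℕ), 1 ≤ b → r ≤ b → 2 * b ≤ R →
    Cir v b k F → NA F v r R ≤ NA F v r (2 * b) + NA F v b R + (2 + 8 * k)

/-- GEO6: a cheap crossing -/
def SRad : Prop := ∀ (F : Finset Edg) (v : Vtx) (b k : ℕ), 1 ≤ b → Rad v b k F →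
    NA F v b (8 * b) ≤ 2 * k

theorem geo_of (h1 : SLoc) (h2 : STr) (h3 : SMono) (h4 : SSuper) (h5 : SCir) (h6 : SRad) :
    Geo NA where
  loc := h1
  tr := h2
  mono := h3.1
  super := h4
  link := by
    intro F v b k r R hb hr hR hL
    obtain ⟨c1, c2, c3⟩ := hL
    have e1 := h5 F v b k r R hb hr (by omega) c1
    have e2 := h5 F v (4 * b) k b R (by omega) (by omega) (by omega) (by exact_mod_cast c2)
    have e3 := h6 F v b k hb c3
    have e4 : 2 * (4 * b) = 8 * b := by ring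
    rw [e4] at e2
    omega
  le := h3.2

end Pool.Agent.W819.EN
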