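import Pool.Agent.H863R2.NL.Pow
import Pool.Agent.H863R2.NL.Inf
import Pool.Agent.W819.EN.Geom

/-! # Comparison of the definitions of `Geom` with those of `H863R2.NL` -/

namespace Pool.Agent.W819.EN
open H974 H906.Cyl Finset

theorem ch_to {X : Type*} {R S : X → X → Prop} {k : ℕ} {a b : X} (h : Ch R S k a b) :
    Pool.Agent.H863R2.Nest.Ch R S k a b := by
  induction h with
  | refl k a => exact Pool.Agent.H863R2.Nest.Ch.refl _ _
  | rel _ hr ih => exact Pool.Agent.H863R2.Nest.Ch.rel ih hr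
  | step _ hs ih => exact Pool.Agent.H863R2.Nest.Ch.step ih hs

theorem ch_of {X : Type*} {R S : X → X → Prop} {k : ℕ} {a b : X}
    (h : Pool.Agent.H863R2.Nest.Ch R S k a b) : Ch R S k a b := by
  induction h with
  | refl k a => exact Ch.refl _ _
  | rel _ hr ih => exact Ch.rel ih hr
  | step _ hs ih => exact Ch.step ih hs

theorem mv_eq (G : Set Edg) : Pool.Agent.H863R2.NL.Mv G = Mv G := rfl

theorem st_eq : Pool.Agent.H863R2.Nest.St = St := rfl

theorem nmv_zero (p : ℤ × ℤ) : nmv (0, 0) p = Pool.Agent.H863R2.NL.nm p := by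
  unfold nmv Pool.Agent.H863R2.NL.nm
  simp

/-- the set version of the number of changes -/
noncomputable def NS (G : Set Edg) (v : Vtx) (r R : ℕ) : ℕ := sInf {K | DA G v r R K}

theorem NA_eq (F : Finset Edg) (v : Vtx) (r R : ℕ) : NA F v r R = NS (↑F) v r R := rfl

theorem NS_zero (G : Set Edg) (R : ℕ) : NS G (0, 0) 0 R = Pool.Agent.H863R2.NL.TT G R := by
  unfold NS Pool.Agent.H863R2.NL.TT
  congr 1
  ext K
  show DA G (0, 0) 0 R K ↔ Pool.Agent.H863R2.NL.D G R K
  unfold DA Pool.Agent.H863R2.NL.D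
  constructor
  · rintro ⟨p, q, h1, h2, h3⟩
    have hp : p = (0, 0) := by
      unfold nmv at h1
      simp only [Nat.cast_zero, mul_zero, add_zero, sub_zero, sub_self] at h1
      have a1 := abs_nonneg p.1
      have a2 := abs_nonneg p.2
      have b1 : p.1 = 0 := abs_eq_zero.1 (by linarith)
      have b2 : p.2 = 0 := abs_eq_zero.1 (by linarith)
      exact Prod.ext b1 b2
    subst hp
    refine ⟨q, ?_, ch_to h3⟩
    rw [← nmv_zero]
    exact h2
  · rintro ⟨q, h1, h2⟩
    refine ⟨(0, 0), q, ?_, ?_, ch_of h2⟩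
    · unfold nmv
      simp
    · rw [nmv_zero]
      exact h1

theorem bx_zero (k : ℕ) : bx (0, 0) k = boxE k := by
  unfold bx boxE
  simp

theorem ET_eq (R : ℕ) (g : ℕ → ℝ) :
    Pool.Agent.H863R2.NL.ET R g = Ex P2 (bx (0, 0) R) (fun F => g (NA F (0, 0) 0 R)) := by
  unfold Pool.Agent.H863R2.NL.ET
  rw [bx_zero]
  congr 1
  funext F
  rw [NA_eq, NS_zero]

end Pool.Agent.W819.EN
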