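import Pool.Agent.W819.EN.Defs

/-!
# Extreme nesting for critical bond percolation: statements of the parts
-/

namespace Pool.Agent.W819.EN
open H974 Finset Filter Topology MeasureTheory
open scoped Real

/-! ### Real analysis -/

/-- the derivative of `Lam` -/
noncomputable def dL (s : ℝ) : ℝ := deriv Lam s

/-- the value of the rate function at `dL s` -/
noncomputable def gam (s : ℝ) : ℝ := s * dL s - Lam s

/-- INT: the integral for `t ≥ 2` (for `t < 2` it is `Pool.Agent.H863R2.NL.int_log`) -/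
def SInt : Prop := ∀ t : ℝ, 0 < t →
  ∫ x : ℝ, Real.log (1 + 1 / (2 * Real.cosh x + 1) * (t - 1)) =
    π ^ 2 / 9 - Real.arccos (t / 2) ^ 2 + Real.arcosh (max (t / 2) 1) ^ 2

/-- LEGA: differentiability and convexity of `Lam` -/
structure LegA : Prop where
  der : ∀ s, HasDerivAt Lam (dL s) s
  mono : StrictMono dL
  cont : Continuous dL
  bot : Tendsto dL atBot (𝓝 0)
  top : Tendsto dL atTop atTop
  typ : dL 0 = nuc
  zero : Lam 0 = 0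
  low : ∀ s, -(5 / 48) ≤ Lam s

/-- LEGB: the rate function -/
structure LegB : Prop where
  rate : ∀ s, Rate (dL s) = gam s
  surj : ∀ ν, 0 < ν → ∃ s, dL s = ν
  gcont : Continuous gam
  gneg : StrictAntiOn gam (Set.Iic 0)
  gpos : StrictMonoOn gam (Set.Ici 0)
  gzero : gam 0 = 0
  glow : ∀ s, s ≤ 0 → gam s < 2
  gstar : ∃ s, 0 < s ∧ gam s = 2

/-! ### Costs of rectangles -/

/-- the BK bound (proved in the library: `Pool.Agent.H863R2.NL.opn_LRc`) -/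
def BKR : Prop := ∀ (k : ℕ) (a b c d : ℤ),
  Pr P2 (LRE a b c d) (fun F => ¬ Opn k (LRE a b c d) (LRc a b c d) F) ≤
    (1 - hh (1 / 2) (b - a) (d - c)) ^ (k + 1)

/-- SUM: exponential tails of sums of independent costs -/
def SumTail : Prop := ∀ (U : Finset Edg) (M : ℕ) (T : ℕ → Finset Edg)
  (X : ℕ → Finset Edg → ℕ) (q l : ℝ), 0 ≤ q → 1 ≤ l → l * q < 1 →
  (∀ i < M, T i ⊆ U) → (∀ i < M, ∀ j < M, i ≠ j → Disjoint (T i) (T j)) →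
  (∀ i < M, ∀ F, F ⊆ U → X i F = X i (F ∩ T i)) →
  (∀ i < M, ∀ j : ℕ, Pr P2 U (fun F => j < X i F) ≤ q ^ (j + 1)) →
  ∀ k : ℕ, Pr P2 U (fun F => k ≤ ∑ i ∈ range M, X i F) ≤ (1 / (1 - l * q)) ^ M * (1 / l) ^ k

/-- SLAB: the tail of the cost of a long rectangle, with a rate that does not depend on the
aspect ratio `m` -/
def Slab : Prop := ∃ ρ : ℝ, 0 < ρ ∧ ρ < 1 ∧ ∀ m : ℕ, ∃ C : ℝ, 0 < C ∧
  ∀ w h : ℤ, 2 ≤ h → 0 < w → w ≤ m * h → ∀ k : ℕ,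
    Pr P2 (LRE 0 w 0 h) (fun F => ¬ Opn k (LRE 0 w 0 h) (LRc 0 w 0 h) F) ≤ C * ρ ^ k

/-- TAIL: superexponential tails of the cost of a rectangle -/
def Tail : Prop := ∀ ρ : ℝ, 0 < ρ → ∃ C : ℝ, 0 < C ∧
  ∀ w h : ℤ, 1 ≤ h → 0 < w → w ≤ 8 * h → ∀ k : ℕ,
    Pr P2 (LRE 0 w 0 h) (fun F => ¬ Opn k (LRE 0 w 0 h) (LRc 0 w 0 h) F) ≤ C * ρ ^ k

/-- LTAIL: superexponential tails of the cost of a link -/
def LTail : Prop := ∀ ρ : ℝ, 0 < ρ → ∃ C : ℝ, 0 < C ∧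
  ∀ (b : ℕ) (v : Vtx) (S : Finset Edg), 1 ≤ b → bx v (8 * b) ⊆ S → ∀ k : ℕ,
    Pr P2 S (fun F => ¬ Lnk v b k F) ≤ C * ρ ^ k

/-! ### Exponential moments -/

/-- ONE: the number of layers around the origin -/
def One (N : Finset Edg → Vtx → ℕ → ℕ → ℕ) : Prop := ∀ s ε : ℝ, 0 < ε → ∃ C : ℝ, 0 < C ∧
  ∀ R : ℕ, 1 ≤ R →
    C⁻¹ * (R : ℝ) ^ (Lam s - ε) ≤
      Ex P2 (bx (0, 0) R) (fun F => Real.exp (s * N F (0, 0) 0 R)) ∧
    Ex P2 (bx (0, 0) R) (fun F => Real.exp (s * N F (0, 0) 0 R)) ≤ C * (R : ℝ) ^ (Lam s + ε)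

/-- lower bound for annuli -/
def AnnLo (N : Finset Edg → Vtx → ℕ → ℕ → ℕ) (s : ℝ) : Prop := ∀ ε : ℝ, 0 < ε →
  ∃ C : ℝ, 0 < C ∧ ∀ b R : ℕ, 1 ≤ b → 8 * b ≤ R →
    C⁻¹ * ((R : ℝ) / b) ^ Lam s * (R : ℝ) ^ (-ε) ≤
      Ex P2 (bx (0, 0) R) (fun F => Real.exp (s * N F (0, 0) (4 * b) R))

/-- upper bound for annuli -/
def AnnUp (N : Finset Edg → Vtx → ℕ → ℕ → ℕ) (s : ℝ) : Prop := ∀ ε : ℝ, 0 < ε →
  ∃ C : ℝ, 0 < C ∧ ∀ b R : ℕ, 1 ≤ b → 8 * b ≤ R →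
    Ex P2 (bx (0, 0) R) (fun F => Real.exp (s * N F (0, 0) (4 * b) R)) ≤
      C * ((R : ℝ) / b) ^ Lam s * (R : ℝ) ^ ε

/-- ANN: annuli -/
def Ann (N : Finset Edg → Vtx → ℕ → ℕ → ℕ) : Prop := ∀ s, AnnLo N s ∧ AnnUp N s

/-! ### Large deviations of one annulus -/

/-- LDP: the exponential change of measure -/
def Ldp : Prop := ∀ (S : Finset Edg) (X : Finset Edg → ℝ) (s ν δ h L : ℝ), 0 < h → 0 < L →
  0 < δ →
  Ex P2 S (fun F => Real.exp (s * X F))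
    - Ex P2 S (fun F => Real.exp ((s + h) * X F)) * Real.exp (-(h * (ν + δ) * L))
    - Ex P2 S (fun F => Real.exp ((s - h) * X F)) * Real.exp (h * (ν - δ) * L) ≤
  Real.exp ((s * ν + |s| * δ) * L) * Pr P2 S (fun F => |X F - ν * L| ≤ δ * L)

/-- DEV: every annulus realises the density `dL s` with probability about `b ^ (- gam s)` -/
def Dev (N : Finset Edg → Vtx → ℕ → ℕ → ℕ) : Prop := ∀ (s δ ε : ℝ) (J : ℕ), 0 < δ → 0 < ε →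
  ∃ b0 : ℕ, ∀ b : ℕ, b0 ≤ b → ∀ j < J, (b : ℝ) ^ (-(gam s) - ε) ≤
    Pr P2 (bx (0, 0) (Rj b j)) (fun F =>
      |(N F (0, 0) (rj b j) (Rj b j) : ℝ) - dL s * Real.log b| ≤ δ * Real.log b)

/-! ### Second moment -/

/-- `v` is good: the numbers of layers in all the annuli `j < J` around `v` belong to the given
sets -/
def Gd (N : Finset Edg → Vtx → ℕ → ℕ → ℕ) (b J : ℕ) (Q : ℕ → Set ℕ) (v : Vtx)
    (F : Finset Edg) : Prop := ∀ j < J, N F v (rj b j) (Rj b j) ∈ Q j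

/-- the vertices of a block -/
noncomputable def blk (b J : ℕ) : Finset Vtx :=
  Finset.Ico (0 : ℤ) ((b : ℤ) ^ J) ×ˢ Finset.Ico (0 : ℤ) ((b : ℤ) ^ J)

open Classical in
/-- number of good vertices of a finite set -/
noncomputable def cnt (N : Finset Edg → Vtx → ℕ → ℕ → ℕ) (b J : ℕ) (Q : ℕ → Set ℕ)
    (V : Finset Vtx) (F : Finset Edg) : ℕ := (V.filter (fun v => Gd N b J Q v F)).card

/-- SEC1: the second moment method in one block -/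
def Blk (N : Finset Edg → Vtx → ℕ → ℕ → ℕ) : Prop := ∀ J : ℕ, 1 ≤ J → ∀ g : ℝ, 0 ≤ g → g < 2 →
  ∃ b0 : ℕ, ∀ b : ℕ, b0 ≤ b → ∀ Q : ℕ → Set ℕ,
  (∀ j < J, (b : ℝ) ^ (-g) ≤
    Pr P2 (bx (0, 0) (Rj b j)) (fun F => N F (0, 0) (rj b j) (Rj b j) ∈ Q j)) →
  ∀ S : Finset Edg, bx (0, 0) (3 * (b : ℤ) ^ J) ⊆ S →
    (b : ℝ) ^ (-7 : ℝ) ≤
      Pr P2 S (fun F => (b : ℝ) ^ ((2 - g) * J) / 2 ≤ (cnt N b J Q (blk b J) F : ℝ))

/-- SEC2: independent blocks -/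
def Sec (N : Finset Edg → Vtx → ℕ → ℕ → ℕ) : Prop := ∀ J : ℕ, 1 ≤ J → ∀ g : ℝ, 0 ≤ g → g < 2 →
  ∃ b0 : ℕ, ∀ b : ℕ, b0 ≤ b → ∀ Q : ℕ → Set ℕ,
  (∀ j < J, (b : ℝ) ^ (-g) ≤
    Pr P2 (bx (0, 0) (Rj b j)) (fun F => N F (0, 0) (rj b j) (Rj b j) ∈ Q j)) →
  ∀ S : Finset Edg, bx (0, 0) (2 * (b : ℤ) ^ (J + 5)) ⊆ S →
    Pr P2 S (fun F => (cnt N b J Q (vb (b ^ (J + 5))) F : ℝ) < (b : ℝ) ^ ((2 - g) * J) / 2) ≤
      Real.exp (-b)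

/-! ### Counting -/

/-- MANY: many vertices with many layers -/
def Many (N : Finset Edg → Vtx → ℕ → ℕ → ℕ) : Prop := ∀ s1 s0 ε : ℝ, s1 < s0 → 0 < ε →
  gam s0 < 2 → ∃ n0 : ℕ, ∀ n : ℕ, n0 ≤ n → ∀ S : Finset Edg, bx (0, 0) (2 * n) ⊆ S →
    Pr P2 S (fun F =>
      (((vb n).filter (fun v => dL s1 * Real.log n ≤ (N F v 0 n : ℝ))).card : ℝ) <
        (n : ℝ) ^ (2 - gam s0 - ε)) ≤ 1 / (n : ℝ) ^ 2

/-- FEW: many vertices with few layers -/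
def Few (N : Finset Edg → Vtx → ℕ → ℕ → ℕ) : Prop := ∀ s0 s1 ε : ℝ, s0 < s1 → 0 < ε →
  gam s0 < 2 → ∃ n0 : ℕ, ∀ n : ℕ, n0 ≤ n → ∀ S : Finset Edg, bx (0, 0) (2 * n) ⊆ S →
    Pr P2 S (fun F =>
      (((vb n).filter (fun v => (N F v 0 n : ℝ) ≤ dL s1 * Real.log n)).card : ℝ) <
        (n : ℝ) ^ (2 - gam s0 - ε)) ≤ 1 / (n : ℝ) ^ 2

/-! ### The infinite lattice -/

/-- the number of layers around `v` up to the distance `n` in the infinite configuration -/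
noncomputable def lay (N : Finset Edg → Vtx → ℕ → ℕ → ℕ) (n : ℕ) (v : Vtx)
    (ω : sqLattice.edgeSet → Bool) : ℕ := N (FF (bx v n) ω) v 0 n

/-- the multifractal spectrum and the maximum, almost surely -/
def Main (l : ℕ → Vtx → (sqLattice.edgeSet → Bool) → ℕ) : Prop :=
  ∃ νs : ℝ, nuc < νs ∧ Rate νs = 2 ∧ ∀ᵐ ω ∂(bondLaw hlf),
    (∀ ν : ℝ, 0 < ν → ν < nuc → Tendsto (fun n : ℕ =>
      Real.log (((vb n).filter (fun v => (l n v ω : ℝ) ≤ ν * Real.log n)).card : ℝ) /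
        Real.log n) atTop (𝓝 (2 - Rate ν))) ∧
    (∀ ν : ℝ, nuc < ν → ν < νs → Tendsto (fun n : ℕ =>
      Real.log (((vb n).filter (fun v => ν * Real.log n ≤ (l n v ω : ℝ))).card : ℝ) /
        Real.log n) atTop (𝓝 (2 - Rate ν))) ∧
    Tendsto (fun n : ℕ => (((vb n).sup (fun v => l n v ω) : ℕ) : ℝ) / Real.log n) atTop (𝓝 νs)

end Pool.Agent.W819.EN
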