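import Pool.Agent.H863R2.NL.PsSum
import Pool.Agent.W819.EN.Stm

/-! # Exponential moments of the number of loops on the cylinder, all parameters -/

namespace Pool.Agent.W819.EN.Cyl
open Pool.Agent.H863R2.NL Pool.Agent.H863R2.NL.PsSumAux Pool.Agent.H863R2.NL.IntAux Real
  MeasureTheory H974
open Pool.Agent.H863R2.Cyl (Wd)
open Pool.Agent.H160R2.OA (J IsMu)

theorem ps_all : ∃ ps : ℕ → Multiset ℝ, (∀ n, 1 ≤ n → IsPs n (ps n)) ∧
    ∀ H H' : ℝ → ℝ, (∀ p, 0 ≤ p → p ≤ 1 / 3 → HasDerivAt H (H' p) p) →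
      ContinuousOn H' (Set.Icc 0 (1 / 3)) → H 0 = 0 → ∃ C : ℝ, ∀ n : ℕ, 1 ≤ n →
      |((ps n).map H).sum - (3 / (4 * π ^ 2) * (∫ x, H (1 / (2 * Real.cosh x + 1)))) * log n| ≤ C := by
  classical
  have hex : ∀ n : ℕ, ∃ s : Multiset ℝ, 1 ≤ n → IsPs n s ∧
      ∃ (hJ : (J (2 * n)).IsHermitian) (ν : Fin (2 * n) → ℝ), IsMu (2 * n) hJ ν ∧
      ∀ g : ℝ → ℝ, 2 * (s.map g).sum =
        ∑ i, g (1 / (2 * Real.cosh (Real.log (ν i)) + 1)) := by
    intro n
    by_cases hn : 1 ≤ n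
    · obtain ⟨s, h1, h2, h3⟩ := bern hn
      exact ⟨s, fun _ => ⟨⟨h1, h2⟩, h3⟩⟩
    · exact ⟨0, fun h => absurd h hn⟩
  choose ps hps using hex
  refine ⟨ps, fun n hn => (hps n hn).1, ?_⟩
  intro H H' h1 h2 h3
  exact gen ps (fun n hn => (hps n hn).2) H H' h1 h2 h3 _ rfl

theorem cyl (hI : SInt) {t : ℝ} (ht0 : 0 < t) : ∃ c C : ℝ, 0 < c ∧ 0 < C ∧ ∀ n : ℕ, 1 ≤ n →
    c * (n : ℝ) ^ Psi t ≤ EN n (fun m => t ^ m) ∧ EN n (fun m => t ^ m) ≤ C * (n : ℝ) ^ Psi t := by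
  obtain ⟨ps, hps, hH⟩ := ps_all
  obtain ⟨C, hC⟩ := hH (fun p => Real.log (1 + p * (t - 1)))
      (fun p => (t - 1) / (1 + p * (t - 1)))
      (fun p h1 h2 => by
        have h3 := PsSumAux.log_pos ht0 h1 h2
        have h4 : HasDerivAt (fun p : ℝ => 1 + p * (t - 1)) (1 * (t - 1)) p :=
          ((hasDerivAt_id p).mul_const (t - 1)).const_add 1
        refine (h4.log h3.ne').congr_deriv ?_
        ring)
      (by
        apply ContinuousOn.div
        · fun_prop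
        · fun_prop
        · intro p hp
          exact (PsSumAux.log_pos ht0 hp.1 hp.2).ne')
      (by simp)
  refine ⟨Real.exp (-C), Real.exp C, Real.exp_pos _, Real.exp_pos _, ?_⟩
  intro n hn
  have hn0 : (0:ℝ) < n := by exact_mod_cast hn
  have h1 := hC n hn
  have e0 : 3 / (4 * π ^ 2) * (∫ x : ℝ, Real.log (1 + 1 / (2 * Real.cosh x + 1) * (t - 1))) =
      Psi t := by
    rw [hI t ht0]
    rfl
  rw [e0] at h1
  have h2 : EN n (fun m => t ^ m) =
      Real.exp ((ps n).map (fun p => Real.log (1 + p * (t - 1)))).sum := by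
    rw [real_id (hps n hn) t, Real.exp_multiset_sum, Multiset.map_map]
    congr 1
    apply Multiset.map_congr rfl
    intro p hp
    have h3 := (hps n hn).1 p hp
    exact (Real.exp_log (PsSumAux.log_pos ht0 h3.1.le h3.2)).symm
  rw [h2, Real.rpow_def_of_pos hn0, ← Real.exp_add, ← Real.exp_add]
  rw [abs_le] at h1
  constructor
  · apply Real.exp_le_exp.2
    linarith
  · apply Real.exp_le_exp.2
    linarith

end Pool.Agent.W819.EN.Cyl
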