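import Pool.Agent.H974R2.Infinite

/-!
# Extreme nesting for critical bond percolation on the square lattice: definitions

Light module (imports only the elementary percolation library `H974R2`).
`N F v r R` stands for the minimal number of colour changes between the distance `r` and the
distance `R` of the vertex `v` in the configuration `F`; the statements of `Stm` are about an
arbitrary function `N` with the properties collected in `Geo`.
-/

namespace Pool.Agent.W819.EN
open H974 Finset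
open scoped Real

/-- the critical parameter -/
noncomputable abbrev P2 : Edg → ℝ := fun _ => (1 / 2 : ℝ)

/-- the edges of the box of radius `k` around `v` -/
noncomputable def bx (v : Vtx) (k : ℤ) : Finset Edg :=
  RE (v.1 - k) (v.1 + k) (v.2 - k) (v.2 + k)

/-- the edges of the annulus with the radii `r` and `R` around `v` -/
noncomputable def an (v : Vtx) (r R : ℕ) : Finset Edg := bx v R \ bx v ((r : ℤ) - 1)

/-- the vertices of the box of radius `n` around the origin -/
noncomputable def vb (n : ℕ) : Finset Vtx := Finset.Icc (-(n : ℤ)) n ×ˢ Finset.Icc (-(n : ℤ)) n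

/-- the event `C` occurs after opening at most `k` edges of `S` -/
def Opn (k : ℕ) (S : Finset Edg) (C : Finset Edg → Prop) (F : Finset Edg) : Prop :=
  ∃ X, X ⊆ S ∧ X.card ≤ k ∧ C (F ∪ X)

/-- the four rectangles of the annulus with the radii `b`, `2 b` around `v` are crossed (the long
way) after opening at most `k` edges of each rectangle -/
def Cir (v : Vtx) (b : ℤ) (k : ℕ) (F : Finset Edg) : Prop :=
  (Opn k (LRE (v.1 - 2 * b) (v.1 + 2 * b) (v.2 + b) (v.2 + 2 * b))
      (LRc (v.1 - 2 * b) (v.1 + 2 * b) (v.2 + b) (v.2 + 2 * b)) F ∧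
    Opn k (LRE (v.1 - 2 * b) (v.1 + 2 * b) (v.2 - 2 * b) (v.2 - b))
      (LRc (v.1 - 2 * b) (v.1 + 2 * b) (v.2 - 2 * b) (v.2 - b)) F) ∧
  (Opn k (TBE (v.1 + b) (v.1 + 2 * b) (v.2 - 2 * b) (v.2 + 2 * b))
      (TBc (v.1 + b) (v.1 + 2 * b) (v.2 - 2 * b) (v.2 + 2 * b)) F ∧
    Opn k (TBE (v.1 - 2 * b) (v.1 - b) (v.2 - 2 * b) (v.2 + 2 * b))
      (TBc (v.1 - 2 * b) (v.1 - b) (v.2 - 2 * b) (v.2 + 2 * b)) F)

/-- the rectangle from the distance `b` to the distance `8 b` is crossed after opening at most `k`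
of its edges -/
def Rad (v : Vtx) (b : ℤ) (k : ℕ) (F : Finset Edg) : Prop :=
  Opn k (LRE (v.1 + b) (v.1 + 8 * b) (v.2 - b) (v.2 + b))
    (LRc (v.1 + b) (v.1 + 8 * b) (v.2 - b) (v.2 + b)) F

/-- a cheap link at the scale `b` around `v` -/
def Lnk (v : Vtx) (b k : ℕ) (F : Finset Edg) : Prop :=
  Cir v b k F ∧ Cir v (4 * b) k F ∧ Rad v b k F

/-- the geometric properties of the number of colour changes -/
structure Geo (N : Finset Edg → Vtx → ℕ → ℕ → ℕ) : Prop where
  loc : ∀ (F : Finset Edg) (v : Vtx) (r R : ℕ), r ≤ R → N F v r R = N (F ∩ an v r R) v r R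
  tr : ∀ (F : Finset Edg) (v w : Vtx) (r R : ℕ),
    N ((trl v.1 v.2).mp F) (w.1 + v.1, w.2 + v.2) r R = N F w r R
  mono : ∀ (F : Finset Edg) (v : Vtx) (r r' R R' : ℕ), r' ≤ r → R ≤ R' → N F v r R ≤ N F v r' R'
  super : ∀ (F : Finset Edg) (v : Vtx) (r1 R1 r2 R2 : ℕ), r1 ≤ R1 → R1 < r2 → r2 ≤ R2 →
    N F v r1 R1 + N F v r2 R2 ≤ N F v r1 R2
  link : ∀ (F : Finset Edg) (v : Vtx) (b k r R : ℕ), 1 ≤ b → r ≤ b → 8 * b ≤ R → Lnk v b k F →
    N F v r R ≤ N F v r (2 * b) + N F v (4 * b) R + (4 + 18 * k)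
  le : ∀ (F : Finset Edg) (v : Vtx) (r R : ℕ), N F v r R ≤ 2 * R

/-! ## The exponents -/

/-- the exponent of `E t^N`: `3/(4π²) (π²/9 - arccos² (t/2))` for `t ≤ 2` and
`3/(4π²) (π²/9 + arcosh² (t/2))` for `t ≥ 2` -/
noncomputable def Psi (t : ℝ) : ℝ :=
  3 / (4 * π ^ 2) * (π ^ 2 / 9 - Real.arccos (t / 2) ^ 2 + Real.arcosh (max (t / 2) 1) ^ 2)

/-- the exponent of `E exp (s N)` -/
noncomputable def Lam (s : ℝ) : ℝ := Psi (Real.exp s)

/-- the rate function (Legendre transform) -/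
noncomputable def Rate (ν : ℝ) : ℝ := ⨆ s : ℝ, (s * ν - Lam s)

/-- the typical density of layers -/
noncomputable def nuc : ℝ := 1 / (2 * Real.sqrt 3 * π)

/-! ## The scales -/

/-- inner radius of the annulus number `j` -/
def rj (b j : ℕ) : ℕ := if j = 0 then 0 else 4 * b ^ j

/-- outer radius of the annulus number `j` -/
def Rj (b j : ℕ) : ℕ := 2 * b ^ (j + 1)

end Pool.Agent.W819.EN
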