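import Pool.Agent.W819.EN.Bridge
import Pool.Agent.W918.EN.Loc

/-!
# Layers around a vertex of the infinite lattice

The points, the free moves and the changes of colour are those of `Pool.Agent.H863R2.NL.Defs`
(`Pt`, `Corner`, `Free`, `Change`).
-/

namespace Pool.Agent.W819.EN
open H974 H906.Cyl Finset
open Pool.Agent.H863R2.NL (Pt Free Change Corner)
open Pool.Agent.H863R2.NL.InfAux (ph ph_inj ph_surj free_iff change_iff ph_true ph_false)

/-- `p` can be reached from the vertex `v` with at most `k` changes of colour. -/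
inductive ReachFrom (ω : sqLattice.edgeSet → Bool) (v : ℤ × ℤ) : ℕ → Pt → Prop
  | start (k : ℕ) : ReachFrom ω v k (v, true)
  | free {k : ℕ} {p q : Pt} : ReachFrom ω v k p → Free ω p q → ReachFrom ω v k q
  | change {k : ℕ} {p q : Pt} : ReachFrom ω v k p → Change p q → ReachFrom ω v (k + 1) q

/-- Twice the sup distance between the point `p` and the vertex `v`. -/
def dist2 (v : ℤ × ℤ) (p : Pt) : ℤ :=
  max |2 * (p.1.1 - v.1) + (if p.2 then 0 else 1)| |2 * (p.1.2 - v.2) + (if p.2 then 0 else 1)|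

/-- The minimal number of colour changes of a path from the vertex `v` to the distance `n` of `v`:
the number of nested layers around `v` inside the box of radius `n` centred at `v`. -/
noncomputable def layers (n : ℕ) (v : ℤ × ℤ) (ω : sqLattice.edgeSet → Bool) : ℕ :=
  sInf {k | ∃ p : Pt, 2 * (n : ℤ) ≤ dist2 v p ∧ ReachFrom ω v k p}

theorem nmv_ph (v : ℤ × ℤ) (p : Pt) : dist2 v p = nmv v (ph p) := by
  obtain ⟨⟨x, y⟩, b⟩ := p
  obtain ⟨a, c⟩ := v
  cases b
  · rw [ph_false]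
    show max |2 * (x - a) + 1| |2 * (y - c) + 1| =
      |x + y + 1 - (a + c)| + |x - y - (a - c)|
    rcases abs_cases (2 * (x - a) + 1) with ⟨h1, h1'⟩ | ⟨h1, h1'⟩ <;>
    rcases abs_cases (2 * (y - c) + 1) with ⟨h2, h2'⟩ | ⟨h2, h2'⟩ <;>
    rcases abs_cases (x + y + 1 - (a + c)) with ⟨h3, h3'⟩ | ⟨h3, h3'⟩ <;>
    rcases abs_cases (x - y - (a - c)) with ⟨h4, h4'⟩ | ⟨h4, h4'⟩ <;>
    rw [h1, h2, h3, h4] <;> omega
  · rw [ph_true]
    show max |2 * (x - a) + 0| |2 * (y - c) + 0| = |x + y - (a + c)| + |x - y - (a - c)|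
    rcases abs_cases (2 * (x - a) + 0) with ⟨h1, h1'⟩ | ⟨h1, h1'⟩ <;>
    rcases abs_cases (2 * (y - c) + 0) with ⟨h2, h2'⟩ | ⟨h2, h2'⟩ <;>
    rcases abs_cases (x + y - (a + c)) with ⟨h3, h3'⟩ | ⟨h3, h3'⟩ <;>
    rcases abs_cases (x - y - (a - c)) with ⟨h4, h4'⟩ | ⟨h4, h4'⟩ <;>
    rw [h1, h2, h3, h4] <;> omega

theorem reach_chv {ω : sqLattice.edgeSet → Bool} {v : ℤ × ℤ} {k : ℕ} {p : Pt}
    (h : ReachFrom ω v k p) : Ch (Mv (opn ω)) St k (fc v) (ph p) := by
  induction h with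
  | start k => exact Ch.refl k _
  | free _ h ih => exact Ch.rel ih (free_iff.1 h)
  | change _ h ih => exact Ch.step ih (change_iff.1 h)

theorem ch_reachv {ω : sqLattice.edgeSet → Bool} {v : ℤ × ℤ} {k : ℕ} {a b : ℤ × ℤ}
    (h : Ch (Mv (opn ω)) St k a b) (ha : a = fc v) : ∀ p : Pt, ph p = b → ReachFrom ω v k p := by
  induction h with
  | refl k a =>
    intro p hp
    have : p = (v, true) := ph_inj (by rw [hp, ha]; rfl)
    rw [this]
    exact ReachFrom.start k
  | rel _ h ih =>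
    intro p hp
    obtain ⟨q, hq⟩ := ph_surj _
    refine ReachFrom.free (ih ha q hq) (free_iff.2 ?_)
    rw [hq, hp]
    exact h
  | step _ h ih =>
    intro p hp
    obtain ⟨q, hq⟩ := ph_surj _
    refine ReachFrom.change (ih ha q hq) (change_iff.2 ?_)
    rw [hq, hp]
    exact h

theorem start_eq {v p : ℤ × ℤ} (h : nmv v p ≤ 2 * ((0 : ℕ) : ℤ)) : p = fc v := by
  unfold nmv at h
  simp only [Nat.cast_zero, mul_zero] at h
  have a1 := abs_nonneg (p.1 - (v.1 + v.2))
  have a2 := abs_nonneg (p.2 - (v.1 - v.2))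
  have b1 : p.1 - (v.1 + v.2) = 0 := abs_eq_zero.1 (by linarith)
  have b2 : p.2 - (v.1 - v.2) = 0 := abs_eq_zero.1 (by linarith)
  unfold fc
  exact Prod.ext (by simp only; linarith) (by simp only; linarith)

theorem layers_NS (n : ℕ) (v : ℤ × ℤ) (ω : sqLattice.edgeSet → Bool) :
    layers n v ω = NS (opn ω) v 0 n := by
  unfold layers NS
  congr 1
  ext k
  constructor
  · rintro ⟨p, hp, h⟩
    refine ⟨fc v, ph p, ?_, by rw [← nmv_ph]; exact hp, reach_chv h⟩
    unfold nmv fc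
    simp
  · rintro ⟨a, q, ha, hq, h⟩
    obtain ⟨p, rfl⟩ := ph_surj q
    exact ⟨p, by rw [nmv_ph]; exact hq, ch_reachv h (start_eq ha) p rfl⟩

theorem layers_eq (n : ℕ) (v : ℤ × ℤ) (ω : sqLattice.edgeSet → Bool) :
    layers n v ω = lay NA n v ω := by
  rw [layers_NS]
  unfold lay
  rw [NA_eq]
  unfold NS
  congr 1
  ext K
  have hin : ∀ e ∈ an v 0 n, e ∈ bx v n := by
    intro e he
    unfold an at he
    exact (mem_sdiff.1 he).1
  have key : ∀ e ∈ an v 0 n, (e ∈ opn ω ↔ e ∈ (↑(FF (bx v n) ω) : Set Edg)) := by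
    intro e he
    rw [FF_coe]
    exact ⟨fun h => ⟨h, hin e he⟩, fun h => h.1⟩
  constructor
  · intro h
    exact Pool.Agent.W918.EN.DA_imp (Nat.zero_le n) key h
  · intro h
    exact Pool.Agent.W918.EN.DA_imp (Nat.zero_le n) (fun e he => (key e he).symm) h

end Pool.Agent.W819.EN
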