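import Pool.Agent.W819.EN.OneP
import Pool.Agent.W819.EN.Layers
import Pool.Agent.H863R2.NL.CutBK
import Pool.Agent.W762.EN.Int
import Pool.Agent.W333.EN.LegA
import Pool.Agent.W933.EN.LegB
import Pool.Agent.W554.EN2.Sum
import Pool.Agent.W320.EN.Slab
import Pool.Agent.W320.EN.Tail
import Pool.Agent.W108.EN.LTail
import Pool.Agent.W924.EN.ANN1
import Pool.Agent.W214.EN.Ann2
import Pool.Agent.W405.EN.Dev
import Pool.Agent.W605.EN.Sec1
import Pool.Agent.W240.EN.Sec2
import Pool.Agent.W290.EN.Many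
import Pool.Agent.W839.EN.Few
import Pool.Agent.W135.EN.FinA
import Pool.Agent.W230.EN.FinB
import Pool.Agent.W565.EN.Finc
import Pool.Agent.W918.EN.Loc
import Pool.Agent.W21.EN.Tr
import Pool.Agent.W38.EN.Cir

/-!
# Extreme nesting for critical bond percolation on the square lattice
-/

namespace Pool.Agent.W819.EN
open H974 Finset Filter Topology MeasureTheory
open scoped Real

theorem bkr : BKR := fun k a b c d => Pool.Agent.H863R2.NL.opn_LRc k a b c d

theorem geoNA : Geo NA :=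
  geo_of Pool.Agent.W918.EN.t_LOC Pool.Agent.W21.EN.t_TR Pool.Agent.W21.EN.t_MONO
    Pool.Agent.W21.EN.t_SUPER Pool.Agent.W38.EN.t_CIR0 Pool.Agent.W38.EN.t_RAD

theorem tailAll : Tail :=
  Pool.Agent.W320.EN.t_TAIL (Pool.Agent.W320.EN.t_SLAB bkr Pool.Agent.W554.EN2.t_SUM)

theorem ltail : LTail := Pool.Agent.W108.EN.t_LTAIL tailAll

theorem legA : LegA := Pool.Agent.W333.EN.t_LEGA

theorem legB : LegB := Pool.Agent.W933.EN.t_LEGB legA

theorem oneNA : One NA := OneP.one Pool.Agent.W762.EN.t_INT tailAll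

theorem annNA : Ann NA := by
  obtain ⟨u1, l1⟩ := Pool.Agent.W924.EN.t_ANN1 geoNA oneNA
  obtain ⟨l2, u2⟩ := Pool.Agent.W214.EN.t_ANN2 geoNA oneNA ltail
  intro s
  refine ⟨?_, ?_⟩
  · rcases le_or_gt s 0 with h | h
    exacts [l1 s h, l2 s h]
  · rcases lt_or_ge s 0 with h | h
    exacts [u2 s h, u1 s h]

theorem devNA : Dev NA := Pool.Agent.W405.EN.t_DEV legA geoNA oneNA annNA

theorem secNA : Sec NA := Pool.Agent.W240.EN.t_SEC2 geoNA (Pool.Agent.W605.EN.t_SEC1 geoNA)

theorem manyNA : Many NA := Pool.Agent.W290.EN.t_MANY legA legB geoNA devNA secNA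

theorem fewNA : Few NA := Pool.Agent.W839.EN.t_FEW legA legB geoNA annNA ltail devNA secNA

theorem main_layers : Main layers := by
  have h : layers = lay NA := by
    funext n v ω
    exact layers_eq n v ω
  rw [h]
  exact Pool.Agent.W565.EN.t_FINC legA legB geoNA (Pool.Agent.W135.EN.t_FINA geoNA manyNA fewNA)
    (Pool.Agent.W230.EN.t_FINB legA geoNA oneNA)

end Pool.Agent.W819.EN
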