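import Pool.Agent.W819.EN.Cyl
import Pool.Agent.W819.EN.Bridge
import Pool.Agent.W819.EN.BadT
import Pool.Agent.H863R2.NL.Cmp

/-! # Exponential moments of the number of layers around the origin -/

namespace Pool.Agent.W819.EN.OneP
open H974 H906.Cyl Finset
open Pool.Agent.H863R2.NL (EN ET TT Good mu fN EN_avg Ex_per mu_nonneg mu_sum f_le fN_spec ET_pow
  ET_le psi psi_ge ET_mono ET_const ET_le_ET)
open Pool.Agent.H863R2.Cyl (Wd Tc rows FSpec push)

theorem amgm {x δ : ℝ} (hδ : 0 < δ) : x ≤ δ / 2 * x ^ 2 + 1 / (2 * δ) := by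
  have h : 0 ≤ (δ * x - 1) ^ 2 / (2 * δ) := by positivity
  have e : (δ * x - 1) ^ 2 / (2 * δ) = δ / 2 * x ^ 2 + 1 / (2 * δ) - x := by
    field_simp
    ring
  linarith

/-- truncated comparison of the cylinder and the plane -/
theorem cmp {t δ : ℝ} (ht : 1 < t) (hδ : 0 < δ) {a : ℕ} (ha : 0 < a) (K : ℕ) :
    EN (10 * a) (fun m => t ^ m) ≤ t ^ (1 + 10 * K) * ET (4 * a) (fun m => t ^ m) +
      (δ / 2 * EN (10 * a) (fun m => (t ^ 2) ^ m) +
        1 / (2 * δ) * Ex (fun _ => (1/2 : ℝ)) (CE (10 * a) (20 * a))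
          (fun F => ind (¬ Good (10 * a) (2 * a) K F))) := by
  have ok := okq (q := 1/2) (by norm_num) (by norm_num)
  have e1 := EN_avg (n := 10 * a) (by omega) (20 * a) (fun m => t ^ m)
  have e3 := EN_avg (n := 10 * a) (by omega) (20 * a) (fun m => (t ^ 2) ^ m)
  have e2 := Ex_per (n := 10 * a) (k := 4 * a) (M := 20 * a) (by omega) (by omega)
    (fun m => t ^ m)
  rw [e1, e3, ← e2, ← Ex_mul_left, ← Ex_mul_left, ← Ex_mul_left, ← Ex_add, ← Ex_add]
  apply Ex_mono ok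
  intro F hF
  have ht0 : 0 < t := by linarith
  by_cases hG : Good (10 * a) (2 * a) K F
  · have h1 : ind (¬ Good (10 * a) (2 * a) K F) = 0 := ind_not_of (not_not.2 hG)
    simp only [h1, mul_zero, add_zero]
    have h2 : ∑ σ, ∑ τ, mu (10 * a) σ * mu (10 * a) τ *
        t ^ (fN (rows (2 * (10 * a) - 1) (dn (10 * a) (20 * a) F) (20 * a) σ).1
          (rows (2 * (10 * a) - 1) (up (10 * a) (20 * a) F) (20 * a) τ).1) ≤
        t ^ (1 + 10 * K) * t ^ TT (per (10 * a) F) (4 * a) := by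
      apply Pool.Agent.H863R2.NL.CmpAux.avg_le
      intro σ τ
      have h3 := f_le fN_spec ha le_rfl hG σ τ
      rw [← pow_add]
      apply pow_le_pow_right₀ ht.le
      omega
    have h4 : 0 ≤ ∑ σ, ∑ τ, mu (10 * a) σ * mu (10 * a) τ *
        (t ^ 2) ^ (fN (rows (2 * (10 * a) - 1) (dn (10 * a) (20 * a) F) (20 * a) σ).1
          (rows (2 * (10 * a) - 1) (up (10 * a) (20 * a) F) (20 * a) τ).1) := by
      apply Pool.Agent.H863R2.NL.CmpAux.avg_ge
      intro σ τ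
      positivity
    have h5 : 0 ≤ δ / 2 := by positivity
    exact h2.trans (le_add_of_nonneg_right (mul_nonneg h5 h4))
  · have h1 : ind (¬ Good (10 * a) (2 * a) K F) = 1 := ind_of hG
    simp only [h1, mul_one]
    have h2 : ∑ σ, ∑ τ, mu (10 * a) σ * mu (10 * a) τ *
        t ^ (fN (rows (2 * (10 * a) - 1) (dn (10 * a) (20 * a) F) (20 * a) σ).1
          (rows (2 * (10 * a) - 1) (up (10 * a) (20 * a) F) (20 * a) τ).1) ≤
        δ / 2 * (∑ σ, ∑ τ, mu (10 * a) σ * mu (10 * a) τ *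
        (t ^ 2) ^ (fN (rows (2 * (10 * a) - 1) (dn (10 * a) (20 * a) F) (20 * a) σ).1
          (rows (2 * (10 * a) - 1) (up (10 * a) (20 * a) F) (20 * a) τ).1)) + 1 / (2 * δ) := by
      have h3 : ∑ σ : Wd (2 * (10 * a) - 1 + 1), ∑ τ : Wd (2 * (10 * a) - 1 + 1),
          mu (10 * a) σ * mu (10 * a) τ * (1 / (2 * δ)) = 1 / (2 * δ) := by
        simp only [← Finset.sum_mul, ← Finset.mul_sum, mu_sum, mul_one, one_mul]
      rw [← h3, Finset.mul_sum, ← Finset.sum_add_distrib]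
      apply Finset.sum_le_sum; intro σ _
      rw [Finset.mul_sum, ← Finset.sum_add_distrib]
      apply Finset.sum_le_sum; intro τ _
      set m := fN (rows (2 * (10 * a) - 1) (dn (10 * a) (20 * a) F) (20 * a) σ).1
          (rows (2 * (10 * a) - 1) (up (10 * a) (20 * a) F) (20 * a) τ).1 with hm
      have h4 := amgm (x := t ^ m) hδ
      have h5 : (t ^ m) ^ 2 = (t ^ 2) ^ m := by rw [← pow_mul, ← pow_mul, mul_comm]
      rw [h5] at h4
      have h6 := mul_le_mul_of_nonneg_left h4 (mul_nonneg (mu_nonneg (10 * a) σ)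
        (mu_nonneg (10 * a) τ))
      linarith
    have h7 : 0 ≤ t ^ (1 + 10 * K) * t ^ TT (per (10 * a) F) (4 * a) := by positivity
    linarith

/-- lower bound, `s > 0` -/
theorem low (hI : SInt) (hT : Tail) {s ε : ℝ} (hs : 0 < s) (hε : 0 < ε) : ∃ c : ℝ, 0 < c ∧
    ∀ R : ℕ, 1 ≤ R → c * (R : ℝ) ^ (Lam s - ε) ≤ ET R (fun m => Real.exp s ^ m) := by
  set t := Real.exp s with ht
  have ht1 : 1 < t := Real.one_lt_exp_iff.2 hs
  have ht0 : 0 < t := by linarith
  have hLam : Lam s = Psi t := rfl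
  rw [hLam]
  set Ψ1 := Psi t with hΨ1
  set Ψ2 := Psi (t ^ 2) with hΨ2
  obtain ⟨c1, C1, hc1, hC1, h1⟩ := Cyl.cyl hI ht0
  obtain ⟨c2, C2, hc2, hC2, h2⟩ := Cyl.cyl hI (t := t ^ 2) (by positivity)
  set A : ℝ := |Ψ2| + 2 * |Ψ1| + 2 with hA
  have hA0 : 0 < A := by positivity
  set B : ℝ := 10 * s * A / ε with hB
  have hB0 : 0 < B := by positivity
  obtain ⟨C3, hC3, h3⟩ := BadT.bad_tail hT (Real.exp_pos (-B))
  set C4 : ℝ := (C2 + C3 * Real.exp B) / 2 with hC4
  have hC40 : 0 < C4 := by positivity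
  set x : ℝ := Ψ1 - ε with hx
  -- the bound for `n = 10 a`
  have main : ∀ a : ℕ, 0 < a → 2 * C4 / c1 ≤ ((10 * a : ℕ) : ℝ) →
      c1 / (2 * t) * ((10 * a : ℕ) : ℝ) ^ x ≤ ET (4 * a) (fun m => t ^ m) := by
    intro a ha hbig
    set n : ℝ := ((10 * a : ℕ) : ℝ) with hn
    have hn1 : 1 ≤ n := by
      rw [hn]
      exact_mod_cast (by omega : 1 ≤ 10 * a)
    have hn0 : 0 < n := by linarith
    have hlog : 0 ≤ Real.log n := Real.log_nonneg hn1
    set y : ℝ := ε * Real.log n / (10 * s) with hy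
    have hy0 : 0 ≤ y := by positivity
    set K : ℕ := ⌊y⌋₊ with hK
    have hK1 : (K : ℝ) ≤ y := Nat.floor_le hy0
    have hK2 : y < K + 1 := Nat.lt_floor_add_one y
    set δ : ℝ := n ^ (Ψ1 - Ψ2 - 1) with hδ
    have hδ0 : 0 < δ := Real.rpow_pos_of_pos hn0 _
    have hc := cmp ht1 hδ0 ha K
    have hE1 := (h1 (10 * a) (by omega)).1
    have hE2 := (h2 (10 * a) (by omega)).2
    have hE3 := h3 a ha K
    rw [← hn] at hE1 hE2
    -- the three factors
    have f1 : t ^ (1 + 10 * K) ≤ t * n ^ ε := by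
      rw [pow_add, pow_one]
      apply mul_le_mul_of_nonneg_left _ ht0.le
      rw [ht, ← Real.exp_nat_mul, Real.rpow_def_of_pos hn0]
      apply Real.exp_le_exp.2
      push_cast
      have : 10 * (K : ℝ) * s ≤ 10 * y * s := by
        apply mul_le_mul_of_nonneg_right _ hs.le
        linarith
      have e : 10 * y * s = Real.log n * ε := by
        rw [hy]
        field_simp
      linarith
    have f2 : δ / 2 * EN (10 * a) (fun m => (t ^ 2) ^ m) ≤ C2 / 2 * n ^ (Ψ1 - 1) := by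
      have e : δ / 2 * (C2 * n ^ Ψ2) = C2 / 2 * n ^ (Ψ1 - 1) := by
        rw [hδ]
        have : n ^ (Ψ1 - Ψ2 - 1) * n ^ Ψ2 = n ^ (Ψ1 - 1) := by
          rw [← Real.rpow_add hn0]
          congr 1
          ring
        rw [← this]
        ring
      rw [← e]
      exact mul_le_mul_of_nonneg_left hE2 (by positivity)
    have f3 : 1 / (2 * δ) * Ex (fun _ => (1/2 : ℝ)) (CE (10 * a) (20 * a))
          (fun F => ind (¬ Good (10 * a) (2 * a) K F)) ≤
        C3 * Real.exp B / 2 * n ^ (Ψ1 - 1) := by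
      have g1 : Real.exp (-B) ^ K ≤ Real.exp B * n ^ (-A) := by
        rw [← Real.exp_nat_mul, Real.rpow_def_of_pos hn0, ← Real.exp_add]
        apply Real.exp_le_exp.2
        have : B * y ≤ B * (K + 1) := mul_le_mul_of_nonneg_left hK2.le hB0.le
        have e : B * y = Real.log n * A := by
          rw [hB, hy]
          field_simp
        linarith
      have g2 : 1 / (2 * δ) = 1 / 2 * n ^ (-(Ψ1 - Ψ2 - 1)) := by
        rw [hδ, Real.rpow_neg hn0.le]
        field_simp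
      have g3 : n ^ (-(Ψ1 - Ψ2 - 1)) * n ^ (-A) ≤ n ^ (Ψ1 - 1) := by
        rw [← Real.rpow_add hn0]
        apply Real.rpow_le_rpow_of_exponent_le hn1
        have a1 := le_abs_self Ψ2
        have a2 := neg_abs_le Ψ1
        rw [hA]
        linarith
      calc 1 / (2 * δ) * Ex (fun _ => (1/2 : ℝ)) (CE (10 * a) (20 * a))
            (fun F => ind (¬ Good (10 * a) (2 * a) K F))
          ≤ 1 / (2 * δ) * (C3 * (Real.exp B * n ^ (-A))) := by
            apply mul_le_mul_of_nonneg_left _ (by positivity)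
            exact hE3.trans (mul_le_mul_of_nonneg_left g1 hC3.le)
        _ = C3 * Real.exp B / 2 * (n ^ (-(Ψ1 - Ψ2 - 1)) * n ^ (-A)) := by
            rw [g2]
            ring
        _ ≤ _ := mul_le_mul_of_nonneg_left g3 (by positivity)
    have hETn : 0 ≤ ET (4 * a) (fun m => t ^ m) := by
      rw [← ET_const (4 * a) 0]
      exact ET_le_ET (fun m => by positivity)
    have f4 : c1 * n ^ Ψ1 ≤ t * n ^ ε * ET (4 * a) (fun m => t ^ m) + C4 * n ^ (Ψ1 - 1) := by
      have := mul_le_mul_of_nonneg_right f1 hETn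
      have e : C2 / 2 * n ^ (Ψ1 - 1) + C3 * Real.exp B / 2 * n ^ (Ψ1 - 1) =
          C4 * n ^ (Ψ1 - 1) := by rw [hC4]; ring
      linarith
    have f5 : C4 * n ^ (Ψ1 - 1) ≤ c1 / 2 * n ^ Ψ1 := by
      have e : n ^ Ψ1 = n ^ (Ψ1 - 1) * n := by
        rw [Real.rpow_sub_one hn0.ne']
        field_simp
      rw [e]
      have : C4 ≤ c1 / 2 * n := by
        rw [div_le_iff₀ hc1] at hbig
        linarith
      have h0 : 0 ≤ n ^ (Ψ1 - 1) := by positivity
      calc C4 * n ^ (Ψ1 - 1) ≤ (c1 / 2 * n) * n ^ (Ψ1 - 1) := mul_le_mul_of_nonneg_right this h0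
        _ = _ := by ring
    have f6 : c1 / 2 * n ^ Ψ1 ≤ t * n ^ ε * ET (4 * a) (fun m => t ^ m) := by linarith
    have e6 : n ^ Ψ1 = n ^ x * n ^ ε := by
      rw [← Real.rpow_add hn0, hx]
      congr 1
      ring
    rw [e6] at f6
    have hne : 0 < n ^ ε := Real.rpow_pos_of_pos hn0 _
    have f7 : (c1 / (2 * t) * n ^ x) * (t * n ^ ε) ≤
        ET (4 * a) (fun m => t ^ m) * (t * n ^ ε) := by
      have : (c1 / (2 * t) * n ^ x) * (t * n ^ ε) = c1 / 2 * (n ^ x * n ^ ε) := by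
        field_simp
      rw [this]
      linarith
    exact le_of_mul_le_mul_right f7 (by positivity)
  -- general `R`
  set R0 : ℝ := max 4 (2 * C4 / c1) with hR0
  have hR04 : 4 ≤ R0 := le_max_left _ _
  refine ⟨min (R0 ^ (-|x|)) (c1 / (2 * t) * 3 ^ (-|x|)), by positivity, ?_⟩
  intro R hR
  have hR1 : (1 : ℝ) ≤ R := by exact_mod_cast hR
  have hRp : 0 < (R : ℝ) ^ x := by positivity
  by_cases hsm : (R : ℝ) < R0
  · have k1 : (1 : ℝ) ≤ ET R (fun m => t ^ m) := by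
      rw [← ET_const R 1]
      exact ET_le_ET (fun m => one_le_pow₀ ht1.le)
    have k2 : (R : ℝ) ^ x ≤ R0 ^ |x| :=
      (Real.rpow_le_rpow_of_exponent_le hR1 (le_abs_self x)).trans
        (Real.rpow_le_rpow (by positivity) hsm.le (abs_nonneg x))
    calc min (R0 ^ (-|x|)) (c1 / (2 * t) * 3 ^ (-|x|)) * (R : ℝ) ^ x
        ≤ R0 ^ (-|x|) * R0 ^ |x| := by
          apply mul_le_mul (min_le_left _ _) k2 hRp.le (by positivity)
      _ = 1 := by
          rw [← Real.rpow_add (by linarith)]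
          simp
      _ ≤ _ := k1
  · push Not at hsm
    have hR4 : 4 ≤ R := by
      have : (4 : ℝ) ≤ R := hR04.trans hsm
      exact_mod_cast this
    obtain ⟨a, ha⟩ : ∃ a, a = R / 4 := ⟨_, rfl⟩
    have ha0 : 0 < a := by omega
    have hn1 : (R : ℝ) ≤ ((10 * a : ℕ) : ℝ) := by
      exact_mod_cast (by omega : R ≤ 10 * a)
    have hn2 : ((10 * a : ℕ) : ℝ) ≤ 3 * R := by
      exact_mod_cast (by omega : 10 * a ≤ 3 * R)
    have k1 := main a ha0 (((le_max_right _ _).trans hsm).trans hn1)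
    have k2 : ET (4 * a) (fun m => t ^ m) ≤ ET R (fun m => t ^ m) :=
      ET_mono (by omega) (Pool.Agent.H863R2.NL.PowAux.mono_pow ht1)
    have k3 : (3 : ℝ) ^ (-|x|) * (R : ℝ) ^ x ≤ ((10 * a : ℕ) : ℝ) ^ x := by
      rcases le_total 0 x with h0 | h0
      · have : (3 : ℝ) ^ (-|x|) ≤ 1 :=
          Real.rpow_le_one_of_one_le_of_nonpos (by norm_num) (by simp)
        calc (3 : ℝ) ^ (-|x|) * (R : ℝ) ^ x ≤ 1 * (R : ℝ) ^ x :=
              mul_le_mul_of_nonneg_right this hRp.le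
          _ = (R : ℝ) ^ x := one_mul _
          _ ≤ _ := Real.rpow_le_rpow (by positivity) hn1 h0
      · rw [abs_of_nonpos h0, neg_neg, ← Real.mul_rpow (by norm_num) (by positivity)]
        exact Real.rpow_le_rpow_of_nonpos (by positivity) hn2 h0
    calc min (R0 ^ (-|x|)) (c1 / (2 * t) * 3 ^ (-|x|)) * (R : ℝ) ^ x
        ≤ (c1 / (2 * t) * 3 ^ (-|x|)) * (R : ℝ) ^ x :=
          mul_le_mul_of_nonneg_right (min_le_right _ _) hRp.le
      _ = c1 / (2 * t) * (3 ^ (-|x|) * (R : ℝ) ^ x) := by ring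
      _ ≤ c1 / (2 * t) * ((10 * a : ℕ) : ℝ) ^ x := mul_le_mul_of_nonneg_left k3 (by positivity)
      _ ≤ _ := k1.trans k2

/-- upper bound, `s > 0` -/
theorem up (hI : SInt) {s : ℝ} (hs : 0 < s) : ∃ C : ℝ, 0 < C ∧
    ∀ R : ℕ, 1 ≤ R → ET R (fun m => Real.exp s ^ m) ≤ C * (R : ℝ) ^ Lam s := by
  set t := Real.exp s with ht
  have ht1 : 1 < t := Real.one_lt_exp_iff.2 hs
  have ht0 : 0 < t := by linarith
  obtain ⟨c1, C1, hc1, hC1, h1⟩ := Cyl.cyl hI ht0
  refine ⟨C1 * 3 ^ |Psi t|, by positivity, ?_⟩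
  intro R hR
  have hR1 : (1 : ℝ) ≤ R := by exact_mod_cast hR
  have k1 : ET R (fun m => t ^ m) ≤ EN (2 * R + 1) (fun m => t ^ m) :=
    ET_le (by omega) (Pool.Agent.H863R2.NL.PowAux.mono_pow ht1)
  have k2 := (h1 (2 * R + 1) (by omega)).2
  have hn1 : (R : ℝ) ≤ ((2 * R + 1 : ℕ) : ℝ) := by
    exact_mod_cast (by omega : R ≤ 2 * R + 1)
  have hn2 : ((2 * R + 1 : ℕ) : ℝ) ≤ 3 * R := by
    exact_mod_cast (by omega : 2 * R + 1 ≤ 3 * R)
  have k3 : ((2 * R + 1 : ℕ) : ℝ) ^ Psi t ≤ 3 ^ |Psi t| * (R : ℝ) ^ Psi t := by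
    rcases le_total 0 (Psi t) with h0 | h0
    · rw [abs_of_nonneg h0, ← Real.mul_rpow (by norm_num) (by positivity)]
      exact Real.rpow_le_rpow (by positivity) hn2 h0
    · calc ((2 * R + 1 : ℕ) : ℝ) ^ Psi t ≤ (R : ℝ) ^ Psi t :=
            Real.rpow_le_rpow_of_nonpos (by positivity) hn1 h0
        _ = 1 * (R : ℝ) ^ Psi t := (one_mul _).symm
        _ ≤ _ := mul_le_mul_of_nonneg_right (Real.one_le_rpow (by norm_num) (abs_nonneg _))
            (by positivity)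
  calc ET R (fun m => t ^ m) ≤ C1 * ((2 * R + 1 : ℕ) : ℝ) ^ Psi t := k1.trans k2
    _ ≤ C1 * (3 ^ |Psi t| * (R : ℝ) ^ Psi t) := mul_le_mul_of_nonneg_left k3 hC1.le
    _ = _ := by
      show _ = C1 * 3 ^ |Psi t| * (R : ℝ) ^ Lam s
      rw [show Lam s = Psi t from rfl]
      ring

theorem Psi_le_one {t : ℝ} (ht1 : t ≤ 1) : Psi t = psi t := by
  unfold Psi psi
  have h : max (t / 2) 1 = 1 := max_eq_right (by linarith)
  have h1 : Real.arcosh 1 = 0 := by
    unfold Real.arcosh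
    simp
  rw [h, h1]
  ring

/-- `One` -/
theorem one (hI : SInt) (hT : Tail) : One NA := by
  intro s ε hε
  have key : ∀ R : ℕ, Ex P2 (bx (0, 0) R) (fun F => Real.exp (s * NA F (0, 0) 0 R)) =
      ET R (fun m => Real.exp s ^ m) := by
    intro R
    rw [ET_eq]
    congr 1
    funext F
    rw [← Real.exp_nat_mul, mul_comm]
  have hRx : ∀ R : ℕ, 1 ≤ R → ∀ a b : ℝ, a ≤ b → (R : ℝ) ^ a ≤ (R : ℝ) ^ b := by
    intro R hR a b hab
    exact Real.rpow_le_rpow_of_exponent_le (by exact_mod_cast hR) hab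
  rcases le_or_gt s 0 with hs | hs
  · obtain ⟨c, C, hc, hC, h⟩ := ET_pow (Real.exp_pos s) (Real.exp_le_one_iff.2 hs)
    have hL : Lam s = psi (Real.exp s) := Psi_le_one (Real.exp_le_one_iff.2 hs)
    refine ⟨max C c⁻¹, lt_max_of_lt_left hC, ?_⟩
    intro R hR
    rw [key R]
    obtain ⟨h1, h2⟩ := h R hR
    rw [← hL] at h1 h2
    have hRp : 0 < (R : ℝ) ^ Lam s := by
      have : (0 : ℝ) < R := by exact_mod_cast hR
      positivity
    constructor
    · calc (max C c⁻¹)⁻¹ * (R : ℝ) ^ (Lam s - ε) ≤ c * (R : ℝ) ^ Lam s := by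
            apply mul_le_mul _ (hRx R hR _ _ (by linarith)) (by positivity) hc.le
            exact inv_le_of_inv_le₀ hc (le_max_right _ _)
        _ ≤ _ := h1
    · calc ET R (fun m => Real.exp s ^ m) ≤ C * (R : ℝ) ^ Lam s := h2
        _ ≤ _ := by
            apply mul_le_mul (le_max_left _ _) (hRx R hR _ _ (by linarith)) hRp.le
            exact (lt_max_of_lt_left hC).le
  · obtain ⟨c, hc, h1⟩ := low hI hT hs hε
    obtain ⟨C, hC, h2⟩ := up hI hs
    refine ⟨max C c⁻¹, lt_max_of_lt_left hC, ?_⟩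
    intro R hR
    rw [key R]
    have hRp : 0 < (R : ℝ) ^ Lam s := by
      have : (0 : ℝ) < R := by exact_mod_cast hR
      positivity
    constructor
    · calc (max C c⁻¹)⁻¹ * (R : ℝ) ^ (Lam s - ε) ≤ c * (R : ℝ) ^ (Lam s - ε) := by
            apply mul_le_mul_of_nonneg_right _ (by positivity)
            exact inv_le_of_inv_le₀ hc (le_max_right _ _)
        _ ≤ _ := h1 R hR
    · calc ET R (fun m => Real.exp s ^ m) ≤ C * (R : ℝ) ^ Lam s := h2 R hR
        _ ≤ _ := by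
            apply mul_le_mul (le_max_left _ _) (hRx R hR _ _ (by linarith)) hRp.le
            exact (lt_max_of_lt_left hC).le

end Pool.Agent.W819.EN.OneP
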