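import Pool.Agent.W819.EN.Stm

/-!
# Extreme nesting: almost sure statements
-/

namespace Pool.Agent.W819.EN
open H974 Finset Filter Topology MeasureTheory
open scoped Real

/-- number of vertices of the box with at most `x` layers -/
noncomputable def few (N : Finset Edg → Vtx → ℕ → ℕ → ℕ) (n : ℕ) (x : ℝ)
    (ω : sqLattice.edgeSet → Bool) : ℕ := ((vb n).filter (fun v => (lay N n v ω : ℝ) ≤ x)).card

/-- number of vertices of the box with at least `x` layers -/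
noncomputable def many (N : Finset Edg → Vtx → ℕ → ℕ → ℕ) (n : ℕ) (x : ℝ)
    (ω : sqLattice.edgeSet → Bool) : ℕ := ((vb n).filter (fun v => x ≤ (lay N n v ω : ℝ))).card

/-- FINA: almost sure lower bounds -/
def LoA (N : Finset Edg → Vtx → ℕ → ℕ → ℕ) : Prop :=
  (∀ s0 s1 ε : ℝ, s0 < s1 → 0 < ε → gam s0 < 2 → ∀ᵐ ω ∂(bondLaw hlf), ∀ᶠ n : ℕ in atTop,
    (n : ℝ) ^ (2 - gam s0 - ε) ≤ (few N n (dL s1 * Real.log n) ω : ℝ)) ∧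
  (∀ s1 s0 ε : ℝ, s1 < s0 → 0 < ε → gam s0 < 2 → ∀ᵐ ω ∂(bondLaw hlf), ∀ᶠ n : ℕ in atTop,
    (n : ℝ) ^ (2 - gam s0 - ε) ≤ (many N n (dL s1 * Real.log n) ω : ℝ))

/-- FINB: almost sure upper bounds -/
def UpA (N : Finset Edg → Vtx → ℕ → ℕ → ℕ) : Prop :=
  (∀ s ε : ℝ, s ≤ 0 → 0 < ε → ∀ᵐ ω ∂(bondLaw hlf), ∀ᶠ n : ℕ in atTop,
    (few N n (dL s * Real.log n) ω : ℝ) ≤ (n : ℝ) ^ (2 - gam s + ε)) ∧
  (∀ s ε : ℝ, 0 ≤ s → 0 < ε → ∀ᵐ ω ∂(bondLaw hlf), ∀ᶠ n : ℕ in atTop,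
    (many N n (dL s * Real.log n) ω : ℝ) ≤ (n : ℝ) ^ (2 - gam s + ε))

end Pool.Agent.W819.EN
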